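import Mathlib
import Pool.Agent.H548.BK.Low

/-! Many coprime pairs of given size. -/

set_option autoImplicit false

namespace Pool.Agent.Q22.MM

open Finset
open Pool.Agent.H548.WM (ht bx mem_bx ht_le le_ht le_ht' exists_ht card_bx_le card_bx ht_pos Rep)
open Pool.Agent.H548.TC (sum_tail)

theorem many_rep2 : ∃ (c : ℝ) (K : ℕ), 0 < c ∧ ∀ X : ℕ, K ≤ X →
    ∃ S : Finset (Fin 2 → ℤ), (∀ v ∈ S, Rep v ∧ ht v ≤ X ∧ X < 2 * ht v) ∧
      c * (X : ℝ) ^ 2 ≤ S.card := by
  classical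
  refine ⟨1 / 256, 1000, by norm_num, fun X hX => ?_⟩
  set h := X / 2 with hh
  have h1 : 2 * h ≤ X := Nat.mul_div_le X 2
  have h2 : X ≤ 2 * h + 1 := by omega
  have hh500 : 500 ≤ h := by omega
  set T : Finset (ℕ × ℕ) := Finset.Ioc h X ×ˢ Finset.Ioc 0 h with hT
  set good := T.filter fun p => Nat.Coprime p.1 p.2 with hgood
  have hinj : Function.Injective (fun p : ℕ × ℕ => (![(p.1 : ℤ), (p.2 : ℤ)] : Fin 2 → ℤ)) := by
    intro p p' hp
    have e0 := congrFun hp 0
    have e1 := congrFun hp 1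
    simp only [Matrix.cons_val_zero, Matrix.cons_val_one] at e0 e1
    exact Prod.ext (by exact_mod_cast e0) (by exact_mod_cast e1)
  refine ⟨good.image (fun p => ![(p.1 : ℤ), (p.2 : ℤ)]), ?_, ?_⟩
  · intro v hv
    obtain ⟨p, hp, rfl⟩ := Finset.mem_image.1 hv
    rw [hgood, mem_filter, hT, mem_product, mem_Ioc, mem_Ioc] at hp
    obtain ⟨⟨⟨p1, p2⟩, p3, p4⟩, p5⟩ := hp
    set v : Fin 2 → ℤ := ![(p.1 : ℤ), (p.2 : ℤ)] with hv
    have v0 : v 0 = (p.1 : ℤ) := rfl
    have v1 : v 1 = (p.2 : ℤ) := rfl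
    have hlow : (p.1 : ℤ) ≤ (ht v : ℤ) := by
      have := le_ht' v 0
      rw [v0, Nat.abs_cast] at this
      exact this
    have hlow' : p.1 ≤ ht v := by exact_mod_cast hlow
    refine ⟨⟨?_, 0, ?_, fun j hj => absurd hj (by simp)⟩, ?_, by omega⟩
    · have e1 : Finset.univ.gcd v ∣ v 0 := Finset.gcd_dvd (mem_univ _)
      have e2 : Finset.univ.gcd v ∣ v 1 := Finset.gcd_dvd (mem_univ _)
      have e3 : IsCoprime (v 0) (v 1) := by
        rw [v0, v1]
        exact Nat.isCoprime_iff_coprime.2 p5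
      have e4 : IsUnit (Finset.univ.gcd v) := e3.isUnit_of_dvd' e1 e2
      have e5 : normalize (Finset.univ.gcd v) = Finset.univ.gcd v := Finset.normalize_gcd
      rw [← e5]
      exact normalize_eq_one.2 e4
    · rw [v0]
      exact_mod_cast (by omega : 0 < p.1)
    · apply ht_le
      intro i
      fin_cases i
      · show |v 0| ≤ (X : ℤ)
        rw [v0, Nat.abs_cast]
        exact_mod_cast p2
      · show |v 1| ≤ (X : ℤ)
        rw [v1, Nat.abs_cast]
        exact_mod_cast (by omega : p.2 ≤ X)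
  · rw [card_image_of_injective _ hinj]
    set bad := T.filter fun p => ¬ Nat.Coprime p.1 p.2 with hbad
    have hsum := Finset.card_filter_add_card_filter_not (s := T)
      (fun p : ℕ × ℕ => Nat.Coprime p.1 p.2)
    have hTc : T.card = (X - h) * h := by
      rw [hT, card_product, Nat.card_Ioc, Nat.card_Ioc, Nat.sub_zero]
    have hsub : bad ⊆ (Finset.Icc 2 h).biUnion fun d =>
        ((Finset.Ioc h X).filter (d ∣ ·)) ×ˢ ((Finset.Ioc 0 h).filter (d ∣ ·)) := by
      intro p hp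
      rw [hbad, mem_filter, hT, mem_product] at hp
      obtain ⟨⟨q1, q2⟩, q3⟩ := hp
      rw [mem_biUnion]
      refine ⟨Nat.gcd p.1 p.2, ?_, ?_⟩
      · rw [mem_Icc]
        have e1 : 0 < p.2 := (mem_Ioc.1 q2).1
        have e2 : Nat.gcd p.1 p.2 ≤ p.2 := Nat.gcd_le_right _ e1
        have e3 : 0 < Nat.gcd p.1 p.2 := Nat.gcd_pos_of_pos_right _ e1
        have e4 : Nat.gcd p.1 p.2 ≠ 1 := q3
        exact ⟨by omega, e2.trans (mem_Ioc.1 q2).2⟩
      · rw [mem_product, mem_filter, mem_filter]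
        exact ⟨⟨q1, Nat.gcd_dvd_left _ _⟩, q2, Nat.gcd_dvd_right _ _⟩
    have hA : ∀ d, 1 ≤ d → (((Finset.Ioc h X).filter (d ∣ ·)).card : ℝ) ≤
        ((h : ℝ) + 1) / d + 1 := by
      intro d hd
      have hd0 : (0 : ℝ) < d := by exact_mod_cast hd
      have e1 := Nat.Ioc_filter_dvd_card_eq_div X d
      have e2 := Nat.Ioc_filter_dvd_card_eq_div h d
      have e3 : (Finset.Ioc 0 X).filter (d ∣ ·) =
          (Finset.Ioc 0 h).filter (d ∣ ·) ∪ (Finset.Ioc h X).filter (d ∣ ·) := by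
        ext x
        simp only [mem_filter, mem_union, mem_Ioc]
        constructor
        · rintro ⟨⟨a1, a2⟩, a3⟩
          rcases le_or_gt x h with hx | hx
          · exact Or.inl ⟨⟨a1, hx⟩, a3⟩
          · exact Or.inr ⟨⟨hx, a2⟩, a3⟩
        · rintro (⟨⟨a1, a2⟩, a3⟩ | ⟨⟨a1, a2⟩, a3⟩)
          · exact ⟨⟨a1, by omega⟩, a3⟩
          · exact ⟨⟨by omega, a2⟩, a3⟩
      have e4 : Disjoint ((Finset.Ioc 0 h).filter (d ∣ ·)) ((Finset.Ioc h X).filter (d ∣ ·)) := by
        rw [Finset.disjoint_left]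
        intro x hx hx'
        rw [mem_filter, mem_Ioc] at hx hx'
        omega
      rw [e3, card_union_of_disjoint e4, e2] at e1
      have e5 : (((Finset.Ioc h X).filter (d ∣ ·)).card : ℝ) = ((X / d : ℕ) : ℝ) - ((h / d : ℕ) : ℝ) := by
        rw [← e1]
        push_cast
        ring
      have e6 : ((X / d : ℕ) : ℝ) ≤ (X : ℝ) / d := Nat.cast_div_le
      have e7 : (h : ℝ) / d - 1 ≤ ((h / d : ℕ) : ℝ) := by
        have := Nat.lt_div_mul_add (a := h) (b := d) hd
        rw [sub_le_iff_le_add, div_le_iff₀ hd0]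
        have h9 : (h : ℝ) < ((h / d : ℕ) : ℝ) * d + d := by exact_mod_cast this
        linarith
      have e8 : (X : ℝ) ≤ 2 * h + 1 := by exact_mod_cast h2
      have e9 : (X : ℝ) / d ≤ (2 * h + 1) / d := by gcongr
      rw [e5]
      have e10 : (2 * (h : ℝ) + 1) / d = ((h : ℝ) + 1) / d + (h : ℝ) / d := by ring
      linarith
    have hB : ∀ d, (((Finset.Ioc 0 h).filter (d ∣ ·)).card : ℝ) ≤ (h : ℝ) / d := by
      intro d
      rw [Nat.Ioc_filter_dvd_card_eq_div]
      exact Nat.cast_div_le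
    have hbadc : (bad.card : ℝ) ≤ ∑ d ∈ Finset.Icc 2 h, (((h : ℝ) + 1) / d + 1) * ((h : ℝ) / d) := by
      have e1 := (card_le_card hsub).trans card_biUnion_le
      have e2 : (bad.card : ℝ) ≤ ∑ d ∈ Finset.Icc 2 h, ((((Finset.Ioc h X).filter (d ∣ ·)) ×ˢ
          ((Finset.Ioc 0 h).filter (d ∣ ·))).card : ℝ) := by exact_mod_cast e1
      refine e2.trans (Finset.sum_le_sum fun d hd => ?_)
      rw [card_product]
      push_cast
      exact mul_le_mul (hA d (by have := (mem_Icc.1 hd).1; omega)) (hB d) (Nat.cast_nonneg _)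
        (by positivity)
    have hs2 : ∑ d ∈ Finset.Icc 2 h, (1 / (d : ℝ) ^ 2) ≤ 3 / 4 := by
      have e1 := sum_tail 2 h (by norm_num)
      have e2 : Finset.Icc 2 h ⊆ insert 2 ((Finset.Icc 1 h).filter fun d => 2 < d) := by
        intro d hd
        rw [mem_Icc] at hd
        rw [mem_insert, mem_filter, mem_Icc]
        omega
      refine (Finset.sum_le_sum_of_subset_of_nonneg e2 fun _ _ _ => by positivity).trans ?_
      rw [Finset.sum_insert (by simp)]
      norm_num at e1 ⊢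
      linarith
    have hs1 : ∑ d ∈ Finset.Icc 2 h, (1 / (d : ℝ)) ≤ 16 + h / 16 := by
      have e1 : ∀ d ∈ Finset.Icc 2 h, (1 / (d : ℝ)) ≤ (if d ≤ 16 then 1 else 0) + 1 / 16 := by
        intro d hd
        have hd2 := (mem_Icc.1 hd).1
        have hd0 : (2 : ℝ) ≤ d := by exact_mod_cast hd2
        split_ifs with h16
        · have : 1 / (d : ℝ) ≤ 1 := by
            rw [div_le_one (by linarith)]
            linarith
          linarith
        · rw [zero_add]
          have : (16 : ℝ) ≤ d := by exact_mod_cast (by omega : 16 ≤ d)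
          exact one_div_le_one_div_of_le (by norm_num) this
      refine (Finset.sum_le_sum e1).trans ?_
      rw [Finset.sum_add_distrib, Finset.sum_const, nsmul_eq_mul, ← Finset.sum_filter,
        Finset.sum_const, nsmul_eq_mul, mul_one]
      have e2 : (((Finset.Icc 2 h).filter (· ≤ 16)).card : ℝ) ≤ 16 := by
        have : (Finset.Icc 2 h).filter (· ≤ 16) ⊆ Finset.Icc 1 16 := by
          intro d hd
          rw [mem_filter, mem_Icc] at hd
          rw [mem_Icc]
          omega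
        have := card_le_card this
        rw [Nat.card_Icc] at this
        exact_mod_cast this
      have e3 : ((Finset.Icc 2 h).card : ℝ) ≤ h := by
        rw [Nat.card_Icc]
        exact_mod_cast (by omega : h + 1 - 2 ≤ h)
      linarith
    have hbad2 : (bad.card : ℝ) ≤ ((h : ℝ) + 1) * h * (3 / 4) + h * (16 + h / 16) := by
      refine hbadc.trans ?_
      have e1 : ∀ d ∈ Finset.Icc 2 h, (((h : ℝ) + 1) / d + 1) * ((h : ℝ) / d) =
          ((h : ℝ) + 1) * h * (1 / (d : ℝ) ^ 2) + h * (1 / (d : ℝ)) := by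
        intro d hd
        have hd0 : (d : ℝ) ≠ 0 := by
          have := (mem_Icc.1 hd).1
          positivity
        field_simp
      rw [Finset.sum_congr rfl e1, Finset.sum_add_distrib, ← Finset.mul_sum, ← Finset.mul_sum]
      gcongr
    have hgc : ((good.card : ℕ) : ℝ) = ((X - h : ℕ) : ℝ) * h - bad.card := by
      have e1 : good.card + bad.card = (X - h) * h := by
        rw [← hTc]
        exact hsum
      have e2 : ((good.card + bad.card : ℕ) : ℝ) = (((X - h) * h : ℕ) : ℝ) := by rw [e1]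
      push_cast at e2 ⊢
      linarith
    have hXh : (h : ℝ) ≤ ((X - h : ℕ) : ℝ) := by exact_mod_cast (by omega : h ≤ X - h)
    have hh' : (500 : ℝ) ≤ h := by exact_mod_cast hh500
    have hX' : (X : ℝ) ≤ 2 * h + 1 := by exact_mod_cast h2
    have hX3 : (X : ℝ) ≤ 3 * h := by linarith
    have hX0 : (0 : ℝ) ≤ X := Nat.cast_nonneg _
    rw [hgc]
    have k1 : (h : ℝ) * h ≤ ((X - h : ℕ) : ℝ) * h := by gcongr
    have k2 : (X : ℝ) ^ 2 ≤ 9 * h ^ 2 := by nlinarith
    nlinarith

/-- Many primitive vectors of given size. -/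
theorem many_rep' {N : ℕ} (hN : 2 ≤ N) : ∃ (c : ℝ) (K : ℕ), 0 < c ∧ ∀ X : ℕ, K ≤ X →
    ∃ S : Finset (Fin N → ℤ), (∀ v ∈ S, Rep v ∧ ht v ≤ X ∧ X < 2 * ht v) ∧
      c * (X : ℝ) ^ N ≤ S.card := by
  rcases hN.eq_or_lt with h | h
  · subst h
    exact many_rep2
  · exact Pool.Agent.H548.TL.many_rep h

end Pool.Agent.Q22.MM
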