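import Mathlib
import Pool.Agent.Q22.MM.Gen
import Pool.Agent.Q22.MM.Two

/-! Many primitive vectors of given size in a product, outside of a hypersurface. -/

set_option autoImplicit false

namespace Pool.Agent.Q22.MM

open Finset Matrix
open Pool.Agent.H548.WM (ht bx mem_bx ht_le le_ht le_ht' exists_ht card_bx_le card_bx ht_pos Rep)

/-- the part of a vector which belongs to the factor `s` -/
def blk {R : Type*} {r : ℕ} {m : Fin r → ℕ} (x : (Σ s : Fin r, Fin (m s)) → R) (s : Fin r) :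
    Fin (m s) → R := fun l => x ⟨s, l⟩

/-- Zeros of a polynomial in a box with different sides. -/
theorem zeros_box {σ : Type} [Fintype σ] [DecidableEq σ] {f : MvPolynomial σ ℤ} (hf : f ≠ 0) :
    ∃ A : ℝ, 0 ≤ A ∧ ∀ (X : σ → ℕ) (K : ℕ), 1 ≤ K → (∀ l, K ≤ X l) →
      (((Fintype.piFinset fun l => Finset.Icc (-(X l : ℤ)) (X l)).filter
        fun x => MvPolynomial.eval x f = 0).card : ℝ) ≤ A / K * ∏ l, (3 * (X l : ℝ)) := by
  classical
  set n := Fintype.card σ with hn
  let e : σ ≃ Fin n := Fintype.equivFin σ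
  set p : MvPolynomial (Fin n) ℤ := MvPolynomial.rename e f with hp
  have hp0 : p ≠ 0 := by
    intro h
    apply hf
    have := MvPolynomial.rename_injective (R := ℤ) e e.injective
    exact this (by rw [map_zero]; exact h)
  refine ⟨∑ i : Fin n, (p.degreeOf i : ℝ), by positivity, fun X K hK hX => ?_⟩
  set S : Fin n → Finset ℤ := fun i => Finset.Icc (-(X (e.symm i) : ℤ)) (X (e.symm i)) with hS
  have hSc : ∀ i, (S i).card = 2 * X (e.symm i) + 1 := by
    intro i
    rw [hS]
    simp only [Int.card_Icc]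
    omega
  have h := MvPolynomial.schwartz_zippel_sum_degreeOf hp0 S
  have hK0 : (0 : ℝ) < K := by exact_mod_cast hK
  have hXi : ∀ i, 1 ≤ X (e.symm i) := fun i => hK.trans (hX _)
  have hprod0 : (0 : ℝ) < ∏ i, ((S i).card : ℝ) := by
    refine Finset.prod_pos fun i _ => ?_
    rw [hSc]
    positivity
  have h' : ((((Fintype.piFinset S).filter fun x => MvPolynomial.eval x p = 0).card : ℝ)) /
      ∏ i, ((S i).card : ℝ) ≤ ∑ i, ((p.degreeOf i : ℝ) / ((S i).card : ℝ)) := by
    have h2 := (NNRat.cast_le (K := ℝ)).2 h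
    push_cast at h2 ⊢
    exact h2
  rw [div_le_iff₀ hprod0] at h'
  have hcard : ((Fintype.piFinset fun l => Finset.Icc (-(X l : ℤ)) (X l)).filter
        fun x => MvPolynomial.eval x f = 0).card ≤
      ((Fintype.piFinset S).filter fun x => MvPolynomial.eval x p = 0).card := by
    refine Finset.card_le_card_of_injOn (fun x => fun i => x (e.symm i)) ?_ ?_
    · intro x hx
      rw [mem_coe, mem_filter, Fintype.mem_piFinset] at hx
      rw [mem_coe, mem_filter, Fintype.mem_piFinset]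
      refine ⟨fun i => hx.1 _, ?_⟩
      rw [hp, MvPolynomial.eval_rename]
      have : (fun i => x (e.symm i)) ∘ e = x := by
        funext l
        simp
      rw [this]
      exact hx.2
    · intro x _ y _ hxy
      funext l
      have := congrFun hxy (e l)
      simpa using this
  have h1 : ∑ i, ((p.degreeOf i : ℝ) / ((S i).card : ℝ)) ≤ (∑ i : Fin n, (p.degreeOf i : ℝ)) / K := by
    rw [Finset.sum_div]
    refine Finset.sum_le_sum fun i _ => ?_
    refine div_le_div_of_nonneg_left (Nat.cast_nonneg _) hK0 ?_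
    rw [hSc]
    have := hX (e.symm i)
    exact_mod_cast (by omega : K ≤ 2 * X (e.symm i) + 1)
  have h2 : ∏ i, ((S i).card : ℝ) ≤ ∏ l, (3 * (X l : ℝ)) := by
    calc ∏ i, ((S i).card : ℝ) ≤ ∏ i, (3 * (X (e.symm i) : ℝ)) := by
          refine Finset.prod_le_prod (fun _ _ => Nat.cast_nonneg _) fun i _ => ?_
          rw [hSc]
          have h3 := hXi i
          exact_mod_cast (by omega : 2 * X (e.symm i) + 1 ≤ 3 * X (e.symm i))
      _ = ∏ l, (3 * (X l : ℝ)) := Equiv.prod_comp e.symm (fun l => 3 * (X l : ℝ))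
  calc (((Fintype.piFinset fun l => Finset.Icc (-(X l : ℤ)) (X l)).filter
        fun x => MvPolynomial.eval x f = 0).card : ℝ)
      ≤ (((Fintype.piFinset S).filter fun x => MvPolynomial.eval x p = 0).card : ℝ) := by
        exact_mod_cast hcard
    _ ≤ (∑ i, ((p.degreeOf i : ℝ) / ((S i).card : ℝ))) * ∏ i, ((S i).card : ℝ) := h'
    _ ≤ (∑ i : Fin n, (p.degreeOf i : ℝ)) / K * ∏ l, (3 * (X l : ℝ)) := by
        refine mul_le_mul h1 h2 hprod0.le (by positivity)

/-- Many representatives in a product outside of a hypersurface. -/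
theorem many_gen {r : ℕ} {m : Fin r → ℕ} (hm : ∀ s, 2 ≤ m s)
    {f : MvPolynomial (Σ s : Fin r, Fin (m s)) ℤ} (hf : f ≠ 0) :
    ∃ (c : ℝ) (K : ℕ), 0 < c ∧ 1 ≤ K ∧ ∀ X : Fin r → ℕ, (∀ s, K ≤ X s) →
    ∃ S : Finset ((Σ s : Fin r, Fin (m s)) → ℤ), (∀ v ∈ S, (∀ s, Rep (blk v s) ∧
        ht (blk v s) ≤ X s ∧ X s < 2 * ht (blk v s)) ∧ MvPolynomial.eval v f ≠ 0) ∧
      c * ∏ s, (X s : ℝ) ^ m s ≤ S.card := by
  classical
  choose c K hc h using fun s => many_rep' (hm s)
  obtain ⟨A, hA, hz⟩ := zeros_box hf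
  set C : ℝ := ∏ s, c s with hC
  have hC0 : 0 < C := Finset.prod_pos fun s _ => hc s
  set T : ℝ := ∏ _l : (Σ s : Fin r, Fin (m s)), (3 : ℝ) with hT
  have hT0 : 0 < T := Finset.prod_pos fun _ _ => by norm_num
  obtain ⟨K2, hK2⟩ := exists_nat_ge (2 * (A * T) / C)
  refine ⟨C / 2, ∑ s, K s + K2 + 1, by positivity, by omega, fun X hX => ?_⟩
  have hKs : ∀ s, K s ≤ X s := fun s => by
    have h1 := Finset.single_le_sum (f := K) (fun _ _ => Nat.zero_le _) (mem_univ s)
    have := hX s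
    omega
  choose Y hY hYc using fun s => h s (X s) (hKs s)
  set S0 : Finset ((Σ s : Fin r, Fin (m s)) → ℤ) :=
    (Fintype.piFinset Y).image (fun v l => v l.1 l.2) with hS0
  have hinj : Function.Injective (fun (v : ∀ s, Fin (m s) → ℤ)
      (l : Σ s : Fin r, Fin (m s)) => v l.1 l.2) := by
    intro v v' hv
    funext s l
    exact congrFun hv ⟨s, l⟩
  have hS0c : C * ∏ s, (X s : ℝ) ^ m s ≤ S0.card := by
    rw [hS0, card_image_of_injective _ hinj, Fintype.card_piFinset, hC, ← Finset.prod_mul_distrib]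
    push_cast
    exact Finset.prod_le_prod (fun s _ => mul_nonneg (hc s).le (by positivity)) fun s _ => hYc s
  have hS0m : ∀ v ∈ S0, ∀ s, Rep (blk v s) ∧ ht (blk v s) ≤ X s ∧ X s < 2 * ht (blk v s) := by
    intro v hv s
    obtain ⟨u, hu, rfl⟩ := Finset.mem_image.1 hv
    rw [Fintype.mem_piFinset] at hu
    exact hY s _ (hu s)
  refine ⟨S0.filter fun v => MvPolynomial.eval v f ≠ 0, ?_, ?_⟩
  · intro v hv
    rw [mem_filter] at hv
    exact ⟨hS0m v hv.1, hv.2⟩
  · have h1 := hz (fun l => X l.1) (∑ s, K s + K2 + 1) (by omega) (fun l => hX l.1)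
    have h2 : (S0.filter fun v => MvPolynomial.eval v f = 0).card ≤
        ((Fintype.piFinset fun l : (Σ s : Fin r, Fin (m s)) =>
          Finset.Icc (-(X l.1 : ℤ)) (X l.1)).filter fun x => MvPolynomial.eval x f = 0).card := by
      apply card_le_card
      intro v hv
      rw [mem_filter] at hv
      rw [mem_filter, Fintype.mem_piFinset]
      refine ⟨fun l => ?_, hv.2⟩
      rw [mem_Icc, ← abs_le]
      have h3 := (hS0m v hv.1 l.1).2.1
      have h4 : |blk v l.1 l.2| ≤ (ht (blk v l.1) : ℤ) := le_ht' _ _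
      exact h4.trans (by exact_mod_cast h3)
    have h3 := Finset.card_filter_add_card_filter_not (s := S0)
      (fun v => MvPolynomial.eval v f = 0)
    have h4 : (S0.card : ℝ) = ((S0.filter fun v => MvPolynomial.eval v f = 0).card : ℝ) +
        ((S0.filter fun v => ¬ MvPolynomial.eval v f = 0).card : ℝ) := by
      exact_mod_cast h3.symm
    have h5 : ((S0.filter fun v => MvPolynomial.eval v f = 0).card : ℝ) ≤
        A / ((∑ s, K s + K2 + 1 : ℕ) : ℝ) *
          ∏ l : (Σ s : Fin r, Fin (m s)), (3 * (X l.1 : ℝ)) := by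
      refine le_trans ?_ h1
      exact_mod_cast h2
    have h6 : ∏ l : (Σ s : Fin r, Fin (m s)), (3 * (X l.1 : ℝ)) = T * ∏ s, (X s : ℝ) ^ m s := by
      rw [Finset.prod_mul_distrib]
      congr 1
      rw [Fintype.prod_sigma]
      refine Finset.prod_congr rfl fun s _ => ?_
      simp
    have hP0 : 0 ≤ ∏ s, (X s : ℝ) ^ m s := Finset.prod_nonneg fun s _ => by positivity
    have hKK : (0 : ℝ) < ((∑ s, K s + K2 + 1 : ℕ) : ℝ) := by positivity
    have h7 : A / ((∑ s, K s + K2 + 1 : ℕ) : ℝ) * T ≤ C / 2 := by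
      rw [div_mul_eq_mul_div, div_le_iff₀ hKK]
      rw [div_le_iff₀ hC0] at hK2
      have h8 : (K2 : ℝ) ≤ ((∑ s, K s + K2 + 1 : ℕ) : ℝ) := by
        exact_mod_cast (by omega : K2 ≤ ∑ s, K s + K2 + 1)
      have h9 : (K2 : ℝ) * C ≤ ((∑ s, K s + K2 + 1 : ℕ) : ℝ) * C :=
        mul_le_mul_of_nonneg_right h8 hC0.le
      linarith
    have h8 : ((S0.filter fun v => MvPolynomial.eval v f = 0).card : ℝ) ≤
        C / 2 * ∏ s, (X s : ℝ) ^ m s := by
      refine h5.trans ?_
      rw [h6, ← mul_assoc]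
      exact mul_le_mul_of_nonneg_right h7 hP0
    have h9 : ((S0.filter fun v => MvPolynomial.eval v f ≠ 0).card : ℝ) =
        ((S0.filter fun v => ¬ MvPolynomial.eval v f = 0).card : ℝ) := rfl
    rw [h9]
    linarith

end Pool.Agent.Q22.MM
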