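import Mathlib
import Pool.Agent.Q22.MM.Many
import Pool.Agent.H548.BL.Main

/-! The lower bound for complete intersections which are linear in one of several factors. -/

set_option autoImplicit false

namespace Pool.Agent.Q22.MM

open Finset Matrix
open Pool.Agent.Q22.MB (many_ker2 prim_low2)
open Pool.Agent.H548.BK (KP mem_KP KP_rep two evz_mul indep_of_det)
open Pool.Agent.H548.WM (ht bx mem_bx ht_le le_ht le_ht' exists_ht card_bx_le card_bx ht_pos Rep)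
open Pool.Agent.H548.TL (evz evz_map evz_int deg_evz zerosQ root)

/-- The points of `X` at which the equations are independent in `y` and a polynomial does not
vanish. -/
def InV {R : Type*} [CommRing R] {k N : ℕ} {σ : Type} (F : Fin k → Fin N → MvPolynomial σ ℤ)
    (G : MvPolynomial (σ ⊕ Fin N) ℤ) (x : σ → R) (y : Fin N → R) : Prop :=
  FM F x *ᵥ y = 0 ∧ LinearIndependent R (FM F x).row ∧ evz G (two x y) ≠ 0

open Classical in
/-- Many `y` over a generic `x`. -/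
theorem good_y {k N : ℕ} {σ : Type} [Fintype σ] (hk2 : k + 2 ≤ N) {F : Fin k → Fin N → MvPolynomial σ ℤ}
    (G : MvPolynomial (σ ⊕ Fin N) ℤ) :
    ∃ (c : ℝ) (E M : ℕ), 0 < c ∧ 1 ≤ E ∧
    ∀ (x : σ → ℤ) (J : Fin k → Fin N), ((FM F x).submatrix id J).det ≠ 0 →
      (∃ y0 : Fin N → ℤ, FM F x *ᵥ y0 = 0 ∧ evz G (two x y0) ≠ 0) →
      ∀ (w : Fin k → ℕ) (W Y : ℕ), (∀ i, 1 ≤ w i ∧ w i ≤ W) → 1 ≤ W →
        (∀ i j, |FM F x i j| ≤ (w i : ℤ)) → E * W ^ M ≤ Y →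
        c * (Y : ℝ) ^ (N - k) ≤
          (∏ i, (w i : ℝ)) * ((bx N Y).filter fun y => Rep y ∧ InV F G x y).card := by
  obtain ⟨c, E, m', hc, hE, h⟩ := prim_low2 (k := k) (N := N) hk2
  set κ : ℝ := G.totalDegree * 6 ^ (N - 1) with hκ
  have hκ0 : 0 ≤ κ := by positivity
  obtain ⟨E2, hE2⟩ := exists_nat_ge (4 * κ / c)
  refine ⟨c / 4, E + E2, m' + k, by positivity, by omega, ?_⟩
  intro x J hΔ hz w W Y hw hW hA hY
  have hW' : (1 : ℝ) ≤ W := by exact_mod_cast hW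
  have hWmk : W ^ m' ≤ W ^ (m' + k) := Nat.pow_le_pow_right hW (by omega)
  have hWk : W ^ k ≤ W ^ (m' + k) := Nat.pow_le_pow_right hW (by omega)
  have hYE : E * W ^ m' ≤ Y := by
    calc E * W ^ m' ≤ (E + E2) * W ^ (m' + k) := Nat.mul_le_mul (Nat.le_add_right _ _) hWmk
      _ ≤ Y := hY
  have hYE2 : E2 * W ^ k ≤ Y := by
    calc E2 * W ^ k ≤ (E + E2) * W ^ (m' + k) := Nat.mul_le_mul (Nat.le_add_left _ _) hWk
      _ ≤ Y := hY
  have hY1 : 1 ≤ Y := by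
    refine le_trans ?_ hYE
    exact Nat.one_le_iff_ne_zero.2 (by positivity)
  have hY' : (1 : ℝ) ≤ Y := by exact_mod_cast hY1
  have hli := indep_of_det hΔ
  have h1 := h (FM F x) hli w W Y hw hW hA hYE
  set S := (bx N Y).filter fun y => Rep y ∧ InV F G x y with hS
  set b2 := (bx N Y).filter fun y => FM F x *ᵥ y = 0 ∧ evz G (two x y) = 0 with hb2
  have hsub : (KP (FM F x) Y).filter Rep ⊆ S ∪ b2 := by
    intro y hy
    rw [mem_filter, mem_KP] at hy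
    obtain ⟨⟨hy1, hy2, hy3⟩, hy4⟩ := hy
    rw [mem_union, hS, hb2, mem_filter, mem_filter, mem_bx]
    by_cases e2 : evz G (two x y) = 0
    · exact Or.inr ⟨hy1, hy2, e2⟩
    · exact Or.inl ⟨hy1, hy4, hy2, hli, e2⟩
  have h2 := card_le_card hsub
  have h2' := card_union_le S b2
  have h3 := KP_rep (FM F x) Y
  have h5 := few_yG (by omega) G hΔ hz Y hY1
  rw [← hb2] at h5
  have h6 : (KP (FM F x) Y).card ≤ 2 * (S.card + b2.card) := by omega
  have h7 : ((KP (FM F x) Y).card : ℝ) ≤ 2 * (S.card + b2.card) := by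
    exact_mod_cast h6
  set Q' : ℝ := ∏ i, (w i : ℝ) with hQdef
  have hQ0' : 0 ≤ Q' := Finset.prod_nonneg fun i _ => Nat.cast_nonneg _
  have hQW : Q' ≤ (W : ℝ) ^ k := by
    have h8 := Finset.prod_le_prod (s := (univ : Finset (Fin k))) (f := fun i => (w i : ℝ))
      (g := fun _ => (W : ℝ)) (fun i _ => Nat.cast_nonneg _) (fun i _ => by
        exact_mod_cast (hw i).2)
    rwa [Finset.prod_const, Finset.card_univ, Fintype.card_fin] at h8
  have h8 : c * (Y : ℝ) ^ (N - k) ≤ Q' * (2 * (S.card + b2.card)) :=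
    h1.trans (by gcongr)
  have h9 : Q' * (2 * b2.card) ≤ c / 2 * (Y : ℝ) ^ (N - k) := by
    have e1 : (Y : ℝ) ^ (N - k) = (Y : ℝ) ^ (N - k - 1) * Y := by
      rw [← pow_succ]
      congr 1
      omega
    have e2 : 4 * κ ≤ c * (E2 : ℝ) := by
      rw [div_le_iff₀ hc] at hE2
      linarith
    have e3 : (E2 : ℝ) * (W : ℝ) ^ k ≤ Y := by exact_mod_cast hYE2
    calc Q' * (2 * b2.card) ≤ (W : ℝ) ^ k * (2 * b2.card) := by gcongr
      _ ≤ (W : ℝ) ^ k * (2 * (κ * (Y : ℝ) ^ (N - k - 1))) := by gcongr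
      _ = (4 * κ) / 2 * ((W : ℝ) ^ k * (Y : ℝ) ^ (N - k - 1)) := by ring
      _ ≤ (c * (E2 : ℝ)) / 2 * ((W : ℝ) ^ k * (Y : ℝ) ^ (N - k - 1)) := by gcongr
      _ = c / 2 * ((Y : ℝ) ^ (N - k - 1) * (E2 * (W : ℝ) ^ k)) := by ring
      _ ≤ c / 2 * ((Y : ℝ) ^ (N - k - 1) * Y) := by gcongr
      _ = c / 2 * (Y : ℝ) ^ (N - k) := by rw [e1]
  have h10 : Q' * (2 * (S.card + b2.card)) = 2 * (Q' * S.card) + Q' * (2 * b2.card) := by ring
  rw [h10] at h8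
  linarith

open Classical in
/-- Many points in a box. -/
theorem box_low {k N r : ℕ} {m : Fin r → ℕ} (hm : ∀ s, 2 ≤ m s) (hk2 : k + 2 ≤ N)
    {F : Fin k → Fin N → MvPolynomial (Σ s : Fin r, Fin (m s)) ℤ} {d : Fin k → Fin r → ℕ}
    (hF : ∀ i j, (F i j).IsWeightedHomogeneous
      (fun l : (Σ s : Fin r, Fin (m s)) => (Pi.single l.1 1 : Fin r → ℕ)) (d i))
    (hd : ∀ s, ∑ i, d i s ≤ m s)
    {G : MvPolynomial ((Σ s : Fin r, Fin (m s)) ⊕ Fin N) ℤ}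
    (hG : ∃ (x : (Σ s : Fin r, Fin (m s)) → ℂ) (y : Fin N → ℂ), InV F G x y) :
    ∃ (c : ℝ) (K E M : ℕ), 0 < c ∧ 1 ≤ K ∧ 1 ≤ E ∧ ∀ (X : Fin r → ℕ) (Y : ℕ), (∀ s, K ≤ X s) →
      E * (∏ s, X s) ^ M ≤ Y →
      ∃ P : Finset (((Σ s : Fin r, Fin (m s)) → ℤ) × (Fin N → ℤ)),
        (∀ t ∈ P, (∀ s, Rep (blk t.1 s)) ∧ Rep t.2 ∧ InV F G t.1 t.2 ∧
          (∀ s, ht (blk t.1 s) ≤ X s ∧ X s < 2 * ht (blk t.1 s)) ∧ ht t.2 ≤ Y) ∧
        c * ((∏ s, (X s : ℝ) ^ (m s - ∑ i, d i s)) * (Y : ℝ) ^ (N - k)) ≤ P.card := by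
  obtain ⟨f, J, hf0, hfx⟩ := gen (F := F) (G := G) hG
  obtain ⟨cx, Kx, hcx, hKx, hx⟩ := many_gen hm hf0
  obtain ⟨cy, Ey, m', hcy, hEy, hy⟩ := good_y (F := F) hk2 G
  set C0 := siz F with hC0
  have hC01 : 1 ≤ C0 := by
    rw [hC0]
    unfold siz
    omega
  have hC0' : (0 : ℝ) < C0 := by exact_mod_cast hC01
  set D := ∑ i, ∑ s, d i s with hD
  refine ⟨cx * cy / C0 ^ k, Kx, Ey * C0 ^ m', D * m', by positivity, hKx,
    Nat.one_le_iff_ne_zero.2 (by positivity), ?_⟩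
  intro X Y hX hY
  obtain ⟨SX, hSX, hSXc⟩ := hx X hX
  have hX1 : ∀ s, 1 ≤ X s := fun s => hKx.trans (hX s)
  have hX' : ∀ s, (0 : ℝ) < X s := fun s => by exact_mod_cast hX1 s
  have hXp : 1 ≤ ∏ s, X s := Finset.one_le_prod' fun s _ => hX1 s
  set Fy : ((Σ s : Fin r, Fin (m s)) → ℤ) → Finset (Fin N → ℤ) := fun x =>
    (bx N Y).filter fun y => Rep y ∧ InV F G x y with hFy
  set P := (SX ×ˢ (bx N Y)).filter fun t => Rep t.2 ∧ InV F G t.1 t.2 with hP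
  refine ⟨P, ?_, ?_⟩
  · intro t ht'
    rw [hP, mem_filter, mem_product, mem_bx] at ht'
    obtain ⟨⟨a1, a2⟩, a3, a4⟩ := ht'
    obtain ⟨b1, -⟩ := hSX _ a1
    exact ⟨fun s => (b1 s).1, a3, a4, fun s => (b1 s).2, a2⟩
  · have hcard : P.card = ∑ x ∈ SX, (Fy x).card := by
      rw [hP, card_filter, sum_product]
      refine Finset.sum_congr rfl fun x _ => ?_
      rw [hFy, card_filter]
    set XD : ℝ := ∏ s, (X s : ℝ) ^ (∑ i, d i s) with hXD
    have hXD0 : 0 < XD := Finset.prod_pos fun s _ => pow_pos (hX' s) _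
    set V : ℝ := cy * (Y : ℝ) ^ (N - k) / (C0 ^ k * XD) with hV
    have hprod : ∏ i, ((C0 * ∏ s, X s ^ d i s : ℕ) : ℝ) = C0 ^ k * XD := by
      push_cast
      rw [Finset.prod_mul_distrib, Finset.prod_const, Finset.card_univ, Fintype.card_fin,
        Finset.prod_comm]
      congr 1
      rw [hXD]
      refine Finset.prod_congr rfl fun s _ => ?_
      exact Finset.prod_pow_eq_pow_sum (univ : Finset (Fin k)) (fun i => d i s) (X s : ℝ)
    have hwle : ∀ i, ∏ s, X s ^ d i s ≤ (∏ s, X s) ^ D := by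
      intro i
      have e1 : ∀ s, d i s ≤ D := by
        intro s
        calc d i s ≤ ∑ s, d i s := Finset.single_le_sum (f := fun s => d i s)
              (fun _ _ => Nat.zero_le _) (mem_univ s)
          _ ≤ D := Finset.single_le_sum (f := fun i => ∑ s, d i s)
              (fun _ _ => Nat.zero_le _) (mem_univ i)
      calc ∏ s, X s ^ d i s ≤ ∏ s, X s ^ D :=
            Finset.prod_le_prod' fun s _ => Nat.pow_le_pow_right (hX1 s) (e1 s)
        _ = (∏ s, X s) ^ D := Finset.prod_pow _ _ _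
    have hfib : ∀ x ∈ SX, V ≤ ((Fy x).card : ℝ) := by
      intro x hx
      obtain ⟨b2, b4⟩ := hSX x hx
      obtain ⟨hΔ, hz⟩ := hfx x b4
      have hxl : ∀ l, |x l| ≤ (X l.1 : ℤ) := by
        intro l
        have h3 := (b2 l.1).2.1
        have h4 : |blk x l.1 l.2| ≤ (ht (blk x l.1) : ℤ) := le_ht' _ _
        exact h4.trans (by exact_mod_cast h3)
      have h4 := hy x J hΔ hz (fun i => C0 * ∏ s, X s ^ d i s) (C0 * (∏ s, X s) ^ D) Y
        (fun i => ⟨Nat.one_le_iff_ne_zero.2 (Nat.mul_ne_zero (by omega)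
            (Finset.prod_ne_zero_iff.2 fun s _ => pow_ne_zero _ (by have := hX1 s; omega))),
          Nat.mul_le_mul_left _ (hwle i)⟩)
        (Nat.one_le_iff_ne_zero.2 (Nat.mul_ne_zero (by omega) (pow_ne_zero _ (by omega))))
        (FM_le hF hxl) (by
        calc Ey * (C0 * (∏ s, X s) ^ D) ^ m' = Ey * C0 ^ m' * (∏ s, X s) ^ (D * m') := by
              rw [mul_pow, ← pow_mul]
              ring
          _ ≤ Y := hY)
      rw [hV, div_le_iff₀ (by positivity)]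
      rw [hprod] at h4
      calc cy * (Y : ℝ) ^ (N - k) ≤ _ := h4
        _ = _ := by
          rw [hFy]
          ring
    have hV0 : 0 ≤ V := by positivity
    calc cx * cy / C0 ^ k * ((∏ s, (X s : ℝ) ^ (m s - ∑ i, d i s)) * (Y : ℝ) ^ (N - k)) =
          (cx * ∏ s, (X s : ℝ) ^ m s) * V := by
          have e1 : ∏ s, (X s : ℝ) ^ m s = (∏ s, (X s : ℝ) ^ (m s - ∑ i, d i s)) * XD := by
            rw [hXD, ← Finset.prod_mul_distrib]
            refine Finset.prod_congr rfl fun s _ => ?_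
            rw [← pow_add]
            congr 1
            have := hd s
            omega
          rw [hV, e1]
          field_simp
      _ ≤ (SX.card : ℝ) * V := by gcongr
      _ = ∑ x ∈ SX, V := by rw [Finset.sum_const, nsmul_eq_mul]
      _ ≤ ∑ x ∈ SX, ((Fy x).card : ℝ) := Finset.sum_le_sum hfib
      _ = (P.card : ℝ) := by rw [hcard]; push_cast; rfl

/-- The lower bound for integral heights. -/
theorem lower_nat {k N r : ℕ} {m : Fin r → ℕ} (hm : ∀ s, 2 ≤ m s) (hk2 : k + 2 ≤ N)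
    {F : Fin k → Fin N → MvPolynomial (Σ s : Fin r, Fin (m s)) ℤ} {d : Fin k → Fin r → ℕ}
    (hF : ∀ i j, (F i j).IsWeightedHomogeneous
      (fun l : (Σ s : Fin r, Fin (m s)) => (Pi.single l.1 1 : Fin r → ℕ)) (d i))
    (hd : ∀ s, ∑ i, d i s < m s)
    {G : MvPolynomial ((Σ s : Fin r, Fin (m s)) ⊕ Fin N) ℤ}
    (hG : ∃ (x : (Σ s : Fin r, Fin (m s)) → ℂ) (y : Fin N → ℂ), InV F G x y) :
    ∃ (c : ℝ) (L₀ : ℕ), 0 < c ∧ 1 ≤ L₀ ∧ ∀ B : ℕ, L₀ ≤ Nat.log 2 B →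
    ∃ P : Finset (((Σ s : Fin r, Fin (m s)) → ℤ) × (Fin N → ℤ)),
      (∀ t ∈ P, (∀ s, Rep (blk t.1 s)) ∧ Rep t.2 ∧ InV F G t.1 t.2 ∧
        (∏ s, (ht (blk t.1 s) : ℝ) ^ (m s - ∑ i, d i s)) * (ht t.2 : ℝ) ^ (N - k) ≤ B) ∧
      c * (B * (Nat.log 2 B : ℝ) ^ r) ≤ P.card := by
  classical
  obtain ⟨c, K, E, M, hc, hK1, hE, h⟩ := box_low hm hk2 hF (fun s => (hd s).le) hG
  set e := N - k with he
  set a : Fin r → ℕ := fun s => m s - ∑ i, d i s with ha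
  have he1 : 1 ≤ e := by omega
  set S := ∑ s, (M * e + a s) + 1 with hsdef
  set Q := 2 * S with hQ
  have hQ0 : 0 < Q := by omega
  have hQ' : (0 : ℝ) < Q := by exact_mod_cast hQ0
  refine ⟨c / 2 ^ e / (2 * Q) ^ r, 2 * Q * K + 2 * E ^ e + 1, by positivity, by omega, ?_⟩
  intro B hB
  set L := Nat.log 2 B with hL
  have hB0 : B ≠ 0 := by
    rintro rfl
    simp at hL
    omega
  have hLB : 2 ^ L ≤ B := Nat.pow_log_le_self 2 hB0
  have hB0' : (0 : ℝ) < B := by exact_mod_cast Nat.pos_of_ne_zero hB0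
  set J : Finset (Fin r → ℕ) := Fintype.piFinset fun _ => Finset.Icc K (L / Q) with hJ
  have hJm : ∀ i ∈ J, ∀ s, K ≤ i s ∧ i s ≤ L / Q := by
    intro i hi s
    rw [hJ, Fintype.mem_piFinset] at hi
    exact mem_Icc.1 (hi s)
  -- the scales
  have hZ : ∀ i ∈ J, ∃ Z : ℕ, E * (∏ s, 2 ^ i s) ^ M ≤ Z ∧
      (∏ s, ((2 ^ i s : ℕ) : ℝ) ^ a s) * (Z : ℝ) ^ e ≤ B ∧
      (B : ℝ) / 2 ^ e ≤ (∏ s, ((2 ^ i s : ℕ) : ℝ) ^ a s) * (Z : ℝ) ^ e := by
    intro i hi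
    have hi' := hJm i hi
    set D : ℝ := ∏ s, ((2 ^ i s : ℕ) : ℝ) ^ a s with hD
    have hD0 : 0 < D := Finset.prod_pos fun s _ => by positivity
    have hnat : (E * (∏ s, 2 ^ i s) ^ M) ^ e * ∏ s, (2 ^ i s) ^ a s ≤ B := by
      have k1 : E ^ e ≤ 2 ^ (L / 2) := by
        calc E ^ e ≤ 2 ^ (E ^ e) := Nat.lt_two_pow_self.le
          _ ≤ 2 ^ (L / 2) := Nat.pow_le_pow_right (by norm_num) (by omega)
      have k2 : (2 : ℕ) ^ (∑ s, (M * e + a s) * i s) ≤ 2 ^ (L / 2) := by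
        apply Nat.pow_le_pow_right (by norm_num)
        have e1 : ∑ s, (M * e + a s) * i s ≤ S * (L / Q) := by
          calc ∑ s, (M * e + a s) * i s ≤ ∑ s, (M * e + a s) * (L / Q) :=
                Finset.sum_le_sum fun s _ => Nat.mul_le_mul_left _ (hi' s).2
            _ = (∑ s, (M * e + a s)) * (L / Q) := by rw [Finset.sum_mul]
            _ ≤ S * (L / Q) := Nat.mul_le_mul_right _ (Nat.le_succ _)
        have e4 : S * (L / Q) * 2 ≤ L := by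
          calc S * (L / Q) * 2 = Q * (L / Q) := by rw [hQ]; ring
            _ ≤ L := Nat.mul_div_le L Q
        omega
      calc (E * (∏ s, 2 ^ i s) ^ M) ^ e * ∏ s, (2 ^ i s) ^ a s
          = E ^ e * 2 ^ (∑ s, (M * e + a s) * i s) := by
            rw [mul_pow, ← pow_mul, mul_assoc, ← Finset.prod_pow, ← Finset.prod_mul_distrib,
              ← Finset.prod_pow_eq_pow_sum]
            congr 1
            refine Finset.prod_congr rfl fun s _ => ?_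
            rw [← pow_mul, ← pow_mul, ← pow_add]
            congr 1
            ring
        _ ≤ 2 ^ (L / 2) * 2 ^ (L / 2) := Nat.mul_le_mul k1 k2
        _ = 2 ^ (L / 2 + L / 2) := by rw [pow_add]
        _ ≤ 2 ^ L := Nat.pow_le_pow_right (by norm_num) (by omega)
        _ ≤ B := hLB
    have hq : ((E * (∏ s, 2 ^ i s) ^ M : ℕ) : ℝ) ^ e ≤ B / D := by
      rw [le_div_iff₀ hD0, hD]
      exact_mod_cast hnat
    obtain ⟨Z, hZ1, hZ2, hZ3⟩ := root (B / D) e _ he1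
      (Nat.one_le_iff_ne_zero.2 (Nat.mul_ne_zero (by omega) (pow_ne_zero _
        (Finset.prod_ne_zero_iff.2 fun s _ => by positivity)))) hq
    refine ⟨Z, hZ1, ?_, ?_⟩
    · rw [le_div_iff₀ hD0] at hZ2
      linarith
    · rw [div_le_iff₀ hD0] at hZ3
      rw [div_le_iff₀ (by positivity)]
      linarith
  have hKj : ∀ j ∈ J, ∀ s, K ≤ 2 ^ j s := by
    intro j hj s
    exact ((hJm j hj s).1.trans (Nat.lt_two_pow_self).le)
  have hPx : ∀ i ∈ J, ∃ P : Finset (((Σ s : Fin r, Fin (m s)) → ℤ) × (Fin N → ℤ)),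
      (∀ t ∈ P, ((∀ s, Rep (blk t.1 s)) ∧ Rep t.2 ∧ InV F G t.1 t.2 ∧
        (∏ s, (ht (blk t.1 s) : ℝ) ^ a s) * (ht t.2 : ℝ) ^ e ≤ B) ∧
        ∀ s, ht (blk t.1 s) ≤ 2 ^ i s ∧ 2 ^ i s < 2 * ht (blk t.1 s)) ∧
      c / 2 ^ e * B ≤ P.card := by
    intro i hi
    obtain ⟨Z, hZ1, hZ2, hZ3⟩ := hZ i hi
    obtain ⟨P, hP, hPc⟩ := h (fun s => 2 ^ i s) Z (hKj i hi) hZ1
    refine ⟨P, ?_, ?_⟩
    · intro t ht'
      obtain ⟨a1, a2, a3, a4, a6⟩ := hP t ht'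
      refine ⟨⟨a1, a2, a3, ?_⟩, a4⟩
      refine le_trans ?_ hZ2
      have b1 : ∏ s, (ht (blk t.1 s) : ℝ) ^ a s ≤ ∏ s, ((2 ^ i s : ℕ) : ℝ) ^ a s := by
        refine Finset.prod_le_prod (fun s _ => by positivity) fun s _ => ?_
        have : (ht (blk t.1 s) : ℝ) ≤ ((2 ^ i s : ℕ) : ℝ) := by exact_mod_cast (a4 s).1
        gcongr
      have b3 : (ht t.2 : ℝ) ≤ (Z : ℝ) := by exact_mod_cast a6
      have b4 : (0 : ℝ) ≤ ∏ s, ((2 ^ i s : ℕ) : ℝ) ^ a s :=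
        Finset.prod_nonneg fun s _ => by positivity
      gcongr
    · refine le_trans ?_ hPc
      calc c / 2 ^ e * B = c * (B / 2 ^ e) := by ring
        _ ≤ _ := by gcongr
  choose! Pj hPj hPc using hPx
  set P := J.biUnion Pj with hP
  refine ⟨P, ?_, ?_⟩
  · intro t ht'
    rw [hP, mem_biUnion] at ht'
    obtain ⟨p, hp, htp⟩ := ht'
    exact (hPj p hp t htp).1
  · have huniq : ∀ (i i' n : ℕ), n ≤ 2 ^ i → 2 ^ i < 2 * n → n ≤ 2 ^ i' → 2 ^ i' < 2 * n →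
        i = i' := by
      have key : ∀ (i i' n : ℕ), n ≤ 2 ^ i → 2 ^ i' < 2 * n → ¬ i < i' := by
        intro i i' n e1 e2 hlt
        have h8 : 2 ^ (i + 1) ≤ 2 ^ i' := Nat.pow_le_pow_right (by norm_num) hlt
        rw [pow_succ] at h8
        omega
      intro i i' n e1 e2 e3 e4
      have k1 := key i i' n e1 e4
      have k2 := key i' i n e3 e2
      omega
    have hdisj : ∀ p ∈ J, ∀ p' ∈ J, p ≠ p' → Disjoint (Pj p) (Pj p') := by
      intro p hp p' hp' hne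
      rw [Finset.disjoint_left]
      intro t ht1 ht2
      have c1 := (hPj p hp t ht1).2
      have d1 := (hPj p' hp' t ht2).2
      exact hne (funext fun s => huniq _ _ _ (c1 s).1 (c1 s).2 (d1 s).1 (d1 s).2)
    have hcard : P.card = ∑ p ∈ J, (Pj p).card := by
      rw [hP, Finset.card_biUnion hdisj]
    have hJ1 : (L : ℝ) / (2 * Q) ≤ ((Finset.Icc K (L / Q)).card : ℝ) := by
      rw [Nat.card_Icc, div_le_iff₀ (by positivity)]
      have e1 : L < Q * (L / Q + 1) := Nat.lt_mul_div_succ L hQ0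
      have e2 : 2 * Q * K ≤ L := by omega
      set u := L / Q with hu
      have e3 : K ≤ u + 1 := by
        by_contra hcon
        push Not at hcon
        have : Q * (u + 1) ≤ Q * K := Nat.mul_le_mul_left _ hcon.le
        have e5 : 2 * Q * K = Q * K + Q * K := by ring
        omega
      rw [Nat.cast_sub e3]
      have e1' : (L : ℝ) < Q * (u + 1) := by exact_mod_cast e1
      have e2' : 2 * (Q : ℝ) * K ≤ L := by exact_mod_cast e2
      push_cast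
      nlinarith
    have hJc : ((L : ℝ) / (2 * Q)) ^ r ≤ (J.card : ℝ) := by
      rw [hJ, Fintype.card_piFinset, Finset.prod_const, Finset.card_univ, Fintype.card_fin]
      push_cast
      exact pow_le_pow_left₀ (by positivity) hJ1 r
    calc c / 2 ^ e / (2 * Q) ^ r * (B * (L : ℝ) ^ r) =
          ((L : ℝ) / (2 * Q)) ^ r * (c / 2 ^ e * B) := by
          rw [div_pow]
          field_simp
      _ ≤ (J.card : ℝ) * (c / 2 ^ e * B) := by gcongr
      _ = ∑ p ∈ J, c / 2 ^ e * (B : ℝ) := by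
          rw [Finset.sum_const, nsmul_eq_mul]
      _ ≤ ∑ p ∈ J, ((Pj p).card : ℝ) := Finset.sum_le_sum hPc
      _ = (P.card : ℝ) := by rw [hcard]; push_cast; rfl

/-- The lower bound. -/
theorem lower {k N r : ℕ} {m : Fin r → ℕ} (hm : ∀ s, 2 ≤ m s) (hk2 : k + 2 ≤ N)
    {F : Fin k → Fin N → MvPolynomial (Σ s : Fin r, Fin (m s)) ℤ} {d : Fin k → Fin r → ℕ}
    (hF : ∀ i j, (F i j).IsWeightedHomogeneous
      (fun l : (Σ s : Fin r, Fin (m s)) => (Pi.single l.1 1 : Fin r → ℕ)) (d i))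
    (hd : ∀ s, ∑ i, d i s < m s)
    {G : MvPolynomial ((Σ s : Fin r, Fin (m s)) ⊕ Fin N) ℤ}
    (hG : ∃ (x : (Σ s : Fin r, Fin (m s)) → ℂ) (y : Fin N → ℂ), InV F G x y) :
    ∃ c X₀ : ℝ, 0 < c ∧ 1 ≤ X₀ ∧ ∀ X : ℝ, X₀ ≤ X →
    ∃ P : Finset (((Σ s : Fin r, Fin (m s)) → ℤ) × (Fin N → ℤ)),
      (∀ t ∈ P, (∀ s, Rep (blk t.1 s)) ∧ Rep t.2 ∧ InV F G t.1 t.2 ∧
        (∏ s, (ht (blk t.1 s) : ℝ) ^ (m s - ∑ i, d i s)) * (ht t.2 : ℝ) ^ (N - k) ≤ X) ∧
      c * (X * Real.log X ^ r) ≤ P.card := by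
  obtain ⟨c, L₀, hc, hL1, h⟩ := lower_nat hm hk2 hF hd hG
  refine ⟨c / (2 * 2 ^ r), 2 ^ L₀ + 1, by positivity, by
    have : (0 : ℝ) < 2 ^ L₀ := by positivity
    linarith, ?_⟩
  intro X hX
  have hp : (1 : ℝ) ≤ 2 ^ L₀ := one_le_pow₀ (by norm_num)
  have hX1 : 1 ≤ X := by linarith
  set B := ⌊X⌋₊ with hB
  have hBX : (B : ℝ) ≤ X := Nat.floor_le (by linarith)
  have hXB : X < B + 1 := Nat.lt_floor_add_one X
  have hB1 : 2 ^ L₀ ≤ B := by
    apply Nat.le_floor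
    push_cast
    linarith
  have hB0 : B ≠ 0 := by
    have : 0 < 2 ^ L₀ := by positivity
    omega
  have hLL : L₀ ≤ Nat.log 2 B := Nat.le_log_of_pow_le (by norm_num) hB1
  obtain ⟨P, hP, hPc⟩ := h B hLL
  refine ⟨P, ?_, ?_⟩
  · intro t ht'
    obtain ⟨a1, a2, a3, a5⟩ := hP t ht'
    exact ⟨a1, a2, a3, a5.trans hBX⟩
  · refine le_trans ?_ hPc
    set L := Nat.log 2 B with hL
    have hL1' : (1 : ℝ) ≤ L := by exact_mod_cast hL1.trans hLL
    have h4 : B + 1 ≤ 2 ^ (L + 1) := Nat.lt_pow_succ_log_self (by norm_num) B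
    have h5 : X ≤ (2 : ℝ) ^ (L + 1) := by
      have : ((B : ℝ) + 1) ≤ (2 : ℝ) ^ (L + 1) := by exact_mod_cast h4
      linarith
    have h6 : Real.log X ≤ 2 * L := by
      calc Real.log X ≤ Real.log ((2 : ℝ) ^ (L + 1)) := Real.log_le_log (by linarith) h5
        _ = ((L + 1 : ℕ) : ℝ) * Real.log 2 := by rw [Real.log_pow]
        _ ≤ ((L + 1 : ℕ) : ℝ) * 1 := by
            gcongr
            have := Real.log_two_lt_d9
            linarith
        _ ≤ 2 * L := by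
            push_cast
            linarith
    have h7 : 0 ≤ Real.log X := Real.log_nonneg hX1
    have hB1' : (1 : ℝ) ≤ B := by exact_mod_cast Nat.one_le_iff_ne_zero.2 hB0
    have h9 : X ≤ 2 * B := by linarith
    calc c / (2 * 2 ^ r) * (X * Real.log X ^ r) ≤
          c / (2 * 2 ^ r) * ((2 * B) * (2 * (L : ℝ)) ^ r) := by gcongr
      _ = c * (B * (L : ℝ) ^ r) := by
          rw [mul_pow]
          field_simp

/-- The rational points of anticanonical height at most `B`, at which the equations are independent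
in `y` and `G` does not vanish. -/
def Pts {k N r : ℕ} {m : Fin r → ℕ} (F : Fin k → Fin N → MvPolynomial (Σ s : Fin r, Fin (m s)) ℤ)
    (d : Fin k → Fin r → ℕ) (G : MvPolynomial ((Σ s : Fin r, Fin (m s)) ⊕ Fin N) ℤ) (B : ℝ) :
    Set (((Σ s : Fin r, Fin (m s)) → ℤ) × (Fin N → ℤ)) :=
  {t | (∀ s, Rep (blk t.1 s)) ∧ Rep t.2 ∧ InV F G t.1 t.2 ∧
    (∏ s, (ht (blk t.1 s) : ℝ) ^ (m s - ∑ i, d i s)) * (ht t.2 : ℝ) ^ (N - k) ≤ B}

theorem finite_pts {k N r : ℕ} {m : Fin r → ℕ} (hk2 : k + 2 ≤ N)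
    (F : Fin k → Fin N → MvPolynomial (Σ s : Fin r, Fin (m s)) ℤ) {d : Fin k → Fin r → ℕ}
    (hd : ∀ s, ∑ i, d i s < m s) (G : MvPolynomial ((Σ s : Fin r, Fin (m s)) ⊕ Fin N) ℤ) (B : ℝ) :
    (Pts F d G B).Finite := by
  classical
  apply (((Fintype.piFinset fun _ : (Σ s : Fin r, Fin (m s)) =>
    Finset.Icc (-(⌊B⌋₊ : ℤ)) (⌊B⌋₊ : ℤ)) ×ˢ (bx N ⌊B⌋₊)).finite_toSet).subset
  rintro t ⟨a1, a2, -, a3⟩
  have n0 : ∀ s, (1 : ℝ) ≤ ht (blk t.1 s) := fun s => by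
    exact_mod_cast ht_pos (Pool.Agent.H548.BL.rep_ne (a1 s))
  have n1 : (1 : ℝ) ≤ ht t.2 := by exact_mod_cast ht_pos (Pool.Agent.H548.BL.rep_ne a2)
  have m1 : (ht t.2 : ℝ) ≤ (ht t.2 : ℝ) ^ (N - k) := le_self_pow₀ n1 (by omega)
  have m2 : ∀ s, (1 : ℝ) ≤ (ht (blk t.1 s) : ℝ) ^ (m s - ∑ i, d i s) := fun s => one_le_pow₀ (n0 s)
  have m3 : (1 : ℝ) ≤ ∏ s, (ht (blk t.1 s) : ℝ) ^ (m s - ∑ i, d i s) := by
    have := Finset.prod_le_prod (s := (univ : Finset (Fin r))) (f := fun _ => (1 : ℝ))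
      (g := fun s => (ht (blk t.1 s) : ℝ) ^ (m s - ∑ i, d i s)) (fun _ _ => zero_le_one)
      (fun s _ => m2 s)
    simpa using this
  have m4 : ∀ s, (ht (blk t.1 s) : ℝ) ≤ ∏ s, (ht (blk t.1 s) : ℝ) ^ (m s - ∑ i, d i s) := by
    intro s0
    have h4 := Finset.prod_le_prod (s := (univ : Finset (Fin r)))
      (f := fun s => if s = s0 then (ht (blk t.1 s0) : ℝ) else 1)
      (g := fun s => (ht (blk t.1 s) : ℝ) ^ (m s - ∑ i, d i s))
      (fun s _ => by positivity) (fun s _ => by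
        by_cases hs : s = s0
        · rw [if_pos hs, hs]
          exact le_self_pow₀ (n0 s0) (by have := hd s0; omega)
        · rw [if_neg hs]
          exact m2 s)
    rwa [Finset.prod_ite_eq' univ s0, if_pos (Finset.mem_univ s0)] at h4
  rw [mem_coe, mem_product, mem_bx, Fintype.mem_piFinset]
  constructor
  · intro l
    have h1 : ht (blk t.1 l.1) ≤ ⌊B⌋₊ := by
      apply Nat.le_floor
      have := m4 l.1
      nlinarith
    rw [mem_Icc, ← abs_le]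
    have h4 : |blk t.1 l.1 l.2| ≤ (ht (blk t.1 l.1) : ℤ) := le_ht' _ _
    exact h4.trans (by exact_mod_cast h1)
  · apply Nat.le_floor
    nlinarith

theorem low {k N r : ℕ} {m : Fin r → ℕ} (hm : ∀ s, 2 ≤ m s) (hk2 : k + 2 ≤ N)
    {F : Fin k → Fin N → MvPolynomial (Σ s : Fin r, Fin (m s)) ℤ} {d : Fin k → Fin r → ℕ}
    (hF : ∀ i j, (F i j).IsWeightedHomogeneous
      (fun l : (Σ s : Fin r, Fin (m s)) => (Pi.single l.1 1 : Fin r → ℕ)) (d i))
    (hd : ∀ s, ∑ i, d i s < m s)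
    {G : MvPolynomial ((Σ s : Fin r, Fin (m s)) ⊕ Fin N) ℤ}
    (hG : ∃ (x : (Σ s : Fin r, Fin (m s)) → ℂ) (y : Fin N → ℂ), InV F G x y) :
    ∃ c B₀ : ℝ, 0 < c ∧ ∀ B : ℝ, B₀ ≤ B → c * B * Real.log B ^ r ≤ ((Pts F d G B).ncard : ℝ) := by
  obtain ⟨c, B₀, hc, hB₀, h⟩ := lower hm hk2 hF hd hG
  refine ⟨c, B₀, hc, fun B hB => ?_⟩
  obtain ⟨P, hP, hPc⟩ := h B hB
  have h4 : (↑P : Set _) ⊆ Pts F d G B := by
    intro t ht'
    exact hP t ht'
  have h5 := Set.ncard_le_ncard h4 (finite_pts hk2 F hd G B)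
  rw [Set.ncard_coe_finset] at h5
  calc c * B * Real.log B ^ r = c * (B * Real.log B ^ r) := by ring
    _ ≤ (P.card : ℝ) := hPc
    _ ≤ ((Pts F d G B).ncard : ℝ) := by exact_mod_cast h5

end Pool.Agent.Q22.MM
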